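import Mathlib
import Pool.Agent.AM21.Functions

/-!
# A polynomial time model of the natural numbers with successor, addition, `2 ^ x` and `3 ^ x`
-/

set_option autoImplicit false

namespace Pool.Agent.Results.MP_cc259d_lc.AdditionModel

open PT21

/-- There is a naming `ν` of the natural numbers by binary strings such that the set of names is
decidable in polynomial time, and successor, addition, `2 ^ x` and `3 ^ x` are computable in
polynomial time on names. -/
theorem result :
    ∃ ν : ℕ → List Bool, Function.Injective ν ∧ PSet (Set.range ν) ∧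
      PFun ν (r := 1) (fun x => x 0 + 1) ∧
      PFun ν (r := 2) (fun x => x 0 + x 1) ∧
      PFun ν (r := 1) (fun x => 2 ^ x 0) ∧
      PFun ν (r := 1) (fun x => 3 ^ x 0) :=
  ⟨AM21.nu, AM21.nu_inj, AM21.pSet_range, AM21.pFun_succ, AM21.pFun_add, AM21.pFun_exp2,
    AM21.pFun_exp3⟩

end Pool.Agent.Results.MP_cc259d_lc.AdditionModel
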