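import Mathlib
import Pool.Agent.PT21.Univ

/-!
# A polynomial time model of the natural numbers with successor, `2 ^ x`, `3 ^ x` as functions,
in which all equations between terms in `0, 1, +, *, 2 ^ x, 3 ^ x` are decidable
-/

set_option autoImplicit false

namespace Pool.Agent.Results.MP_cc259d_lc.EqualityModel

open PT21

/-- There is a naming `ν` of the natural numbers by binary strings such that the set of names is
decidable in polynomial time, `x + 1`, `2 ^ x` and `3 ^ x` are computable in polynomial time on
names, and for every pair of terms `t`, `t'` in any number of variables, built from `0`, `1`, `+`,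
`*`, `2 ^ x` and `3 ^ x`, the relation `t = t'` is decidable in polynomial time on names. -/
theorem result :
    ∃ ν : ℕ → List Bool, Function.Injective ν ∧ PSet (Set.range ν) ∧
      PFun ν (r := 1) (fun x => x 0 + 1) ∧
      PFun ν (r := 1) (fun x => 2 ^ x 0) ∧
      PFun ν (r := 1) (fun x => 3 ^ x 0) ∧
      ∀ (r : ℕ) (t t' : Tm (Fin r)), PRel ν (fun x => t.val x = t'.val x) :=
  ⟨nu, nu_inj, pSet_range, pFun_succ, pFun_exp2, pFun_exp3, pRel_eq⟩

end Pool.Agent.Results.MP_cc259d_lc.EqualityModel
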