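import Pool.Agent.PM80.Final

/-!
# A polynomial time model of arithmetic with `2 ^ x` and the graph of `3 ^ x`

The natural numbers have polynomial time names on which the successor, the addition, the
truncated subtraction, the multiplication and `2 ^ x` are computable in polynomial time and the
order and the graph of `3 ^ x` are decidable in polynomial time.
-/

set_option autoImplicit false

namespace Pool.Agent.Results.MP_cc259d_lc.ProductModel

open PT21

/-- There is a naming of the natural numbers by binary strings such that the set of names is
decidable in polynomial time, the functions `x + 1`, `x + y`, `x - y` (truncated), `x * y` and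
`2 ^ x` are computable in polynomial time on names, and the relations `x ≤ y` and `3 ^ x = y`
are decidable in polynomial time on names. -/
theorem result : ∃ ν : ℕ → List Bool, Function.Injective ν ∧ PSet (Set.range ν) ∧
    PFun ν (r := 1) (fun x => x 0 + 1) ∧ PFun ν (r := 2) (fun x => x 0 + x 1) ∧
    PFun ν (r := 2) (fun x => x 0 - x 1) ∧ PFun ν (r := 2) (fun x => x 0 * x 1) ∧
    PFun ν (r := 1) (fun x => 2 ^ x 0) ∧ PRel ν (r := 2) (fun x => x 0 ≤ x 1) ∧
    PRel ν (r := 2) (fun x => 3 ^ x 0 = x 1) :=
  ⟨PM80.nu, PM80.nu_inj, PM80.pSet_range, PM80.pFun_succ, PM80.pFun_add, PM80.pFun_sub,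
    PM80.pFun_mul, PM80.pFun_exp2, PM80.pRel_le, PM80.pRel_exp3⟩

end Pool.Agent.Results.MP_cc259d_lc.ProductModel
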